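import Pool.Agent.GT.StmtsE
import Pool.Agent.GT.StmtsD

/-!
# Squad GT, block E, row E_SLC: the class of a normalised point is a Selmer class
-/

set_option autoImplicit false

namespace Pool.Agent.GT.OF.H83

open Polynomial Pool.Agent.NJ Pool.Agent.GT.D Pool.Agent.GT.OF

noncomputable section

theorem rt_diff {D : Fin 3 → ℤ} (h : D 0 + D 1 + D 2 = 0) (i j : Fin 3) (hij : i ≠ j) :
    ∃ t, rt 1 D i - rt 1 D j = D t ∨ rt 1 D i - rt 1 D j = - D t := by
  have hj : j = i + 1 ∨ j = i + 2 := by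
    revert i j
    decide
  obtain ⟨h1, h2, -⟩ := rt_sub (K := 1) h i
  rcases hj with rfl | rfl
  · exact ⟨i + 2, Or.inl (by linarith)⟩
  · exact ⟨i + 1, Or.inr (by linarith)⟩

theorem sup_bound (Nf : ℕ → ℕ) (S : Finset ℕ) {q : ℕ} (hq : q ∈ S) : Nf q ≤ S.sup Nf :=
  Finset.le_sup (f := Nf) hq

theorem e_slc (sqa : SqaStmt) (gdp : GdpStmt) (stb : StbStmt) (rel : RelStmt) (dvl : DvlStmt)
    (npe : NpeStmt) (goo : D.GooStmt) : SlcStmt := by
  classical
  intro P hP0 hPs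
  have hst : ∀ q : ℕ, ∃ N : ℕ, ∀ hq : Fact q.Prime, ∀ D : Fin 3 → ℤ,
      (∀ i, (q : ℤ) ^ N ∣ D i - P i) → ∀ d : Fin 3 → ℤ, (∀ i, d i ≠ 0) →
      Cov ℚ_[q] D d → Cov ℚ_[q] P d := by
    intro q
    by_cases hq : q.Prime
    · have : Fact q.Prime := ⟨hq⟩
      obtain ⟨N, hN⟩ := stb q P
      exact ⟨N, fun _ => hN⟩
    · exact ⟨0, fun h => absurd h.out hq⟩
  choose Nf hNf using hst
  obtain ⟨S, hS⟩ : ∃ S : Finset ℕ, S = (2 * P 0 * P 1 * P 2).natAbs.primeFactors := ⟨_, rfl⟩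
  have hne : (2 * P 0 * P 1 * P 2) ≠ 0 :=
    mul_ne_zero (mul_ne_zero (mul_ne_zero two_ne_zero (hP0 0)) (hP0 1)) (hP0 2)
  have hmem : ∀ q : ℕ, q.Prime → (q : ℤ) ∣ 2 * P 0 * P 1 * P 2 → q ∈ S := by
    intro q hq hd
    rw [hS, Nat.mem_primeFactors]
    exact ⟨hq, Int.natCast_dvd.1 hd, Int.natAbs_ne_zero.2 hne⟩
  refine ⟨max 1 (S.sup Nf), le_max_left _ _, ?_⟩
  intro ι _ _ r bl m st p h hN x w hT hz
  have hN1 : 1 ≤ max 1 (S.sup Nf) := le_max_left _ _
  obtain ⟨-, hd2, hd3, hd4⟩ := dvl ι P r bl m st p h _ hN1 hN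
  obtain ⟨hn1, hn2⟩ := npe ι P r bl m st p h _ hN1 hN x w hT hz
  have hsum := hN.sum
  set D : Fin 3 → ℤ := Dn P bl m st p with hD
  set X : Fin 3 → ℤ := Xc (rt 1 D) x w with hX
  have hXne : ∀ i, X i ≠ 0 := hT.ne
  refine ⟨?_, rel P D x w hPs hsum (fun i => (hd2 i).2.1) hT, fun i => (hn2 i).1⟩
  intro q hqF
  have hq : q.Prime := hqF.out
  by_cases hqr : q = r
  · -- the place `r`
    subst hqr
    have hsq : ∀ i, IsSquare ((X i : ℤ) : ℚ_[q]) := fun i =>
      sqa q (X i) hN.r2 (hXne i) (hn2 i).1 (hn2 i).2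
    choose s hs using hsq
    have hs0 : ∀ i, s i ≠ 0 := by
      intro i h0
      have h1 := hs i
      rw [h0, mul_zero] at h1
      exact hXne i (by exact_mod_cast h1)
    have h1 : ∀ i, ((X i : ℤ) : ℚ_[q]) * ((s i)⁻¹) ^ 2 = 1 := by
      intro i
      rw [hs i]
      have := hs0 i
      field_simp
    refine ⟨fun i => (s i)⁻¹, 0, ?_, ?_⟩
    · rintro ⟨h0, -⟩
      have := congrFun h0 0
      exact inv_ne_zero (hs0 0) this
    · intro i
      rw [h1, h1]
      simp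
  · by_cases hdv : (q : ℤ) ∣ 2 * P 0 * P 1 * P 2
    · -- old places
      have hle : Nf q ≤ max 1 (S.sup Nf) :=
        (sup_bound Nf S (hmem q hq hdv)).trans (le_max_right _ _)
      refine hNf q hqF D (fun i => ?_) X hXne ?_
      · exact (pow_dvd_pow _ hle).trans (hd3 q hq hqr hdv i)
      · refine ⟨fun _ => 1, (w : ℚ_[q]), ?_, ?_⟩
        · rintro ⟨h0, -⟩
          have := congrFun h0 0
          exact one_ne_zero this
        · intro i
          have h3 := (rt_sub (K := 1) hsum i).2.2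
          have h4 : X (i + 1) - X (i + 2) = -(D i) * w ^ 2 := by
            rw [hX]
            unfold Xc
            linear_combination (-(w ^ 2)) * h3
          have h5 : ((X (i + 1) : ℤ) : ℚ_[q]) - ((X (i + 2) : ℤ) : ℚ_[q]) =
              -((D i : ℤ) : ℚ_[q]) * (w : ℚ_[q]) ^ 2 := by
            exact_mod_cast h4
          rw [one_pow, mul_one, mul_one]
          exact h5
    · -- new places
      have hq2 : q ≠ 2 := by
        rintro rfl
        apply hdv
        exact ⟨P 0 * P 1 * P 2, by push_cast; ring⟩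
      have hqP : ∀ i, ¬ (q : ℤ) ∣ P i := by
        intro i hi
        apply hdv
        fin_cases i
        · exact (hi.mul_left 2 |>.mul_right (P 1)).mul_right (P 2)
        · exact (hi.mul_left (2 * P 0)).mul_right (P 2)
        · exact hi.mul_left (2 * P 0 * P 1)
      refine gdp q P X hq2 hPs hqP hXne hT.sq ?_
      intro i
      by_cases hl : ∃ l, q = p l
      · obtain ⟨l, rfl⟩ := hl
        exact hn1 l i
      · have hl' : ∀ l, q ≠ p l := fun l hh => hl ⟨l, hh⟩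
        refine goo _ x w q hT hq ?_ i
        intro i j hij hdd
        obtain ⟨t, ht | ht⟩ := rt_diff hsum i j hij
        · rw [ht] at hdd
          exact hd4 q hq hdv hl' t hdd
        · rw [ht] at hdd
          exact hd4 q hq hdv hl' t ((dvd_neg).1 hdd)

end

end Pool.Agent.GT.OF.H83
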